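import Pool.Agent.Helper13.JS.St
import Pool.Agent.Helper13.JC.LB

/-!
# Project JS, module SL: lower bound sieve for the bilinear sums
-/

set_option autoImplicit false

noncomputable section

namespace Pool.Agent.Helper33.JS

open Finset ArithmeticFunction Pool.Agent.Helper13.JS
open Pool.Agent.Helper15.AB (IsW Th SP SN)
open Pool.Agent.Helper60.GP (II)
open Pool.Agent.Helper18.TR (fam0 fam1)
open Pool.Agent.Helper13.JC (exists_b totient_prod dvd_all prod_ge_one)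

open Classical in
/-- the local densities for a fixed `m` -/
def gm (m s : ℕ) : ℝ := (if ¬ s ∣ m then (1 : ℝ) else 0) * (1 / ((s : ℝ) - 1))

open Classical in
theorem prod_gm (m : ℕ) {T : Finset ℕ} (hT : ∀ s ∈ T, s.Prime) :
    ∏ s ∈ T, gm m s =
      (if Nat.Coprime m (∏ s ∈ T, s) then (1 : ℝ) else 0) * ∏ s ∈ T, 1 / ((s : ℝ) - 1) := by
  unfold gm
  rw [Finset.prod_mul_distrib, Finset.prod_ite_zero, Finset.prod_const_one]
  congr 1
  have h : (∀ s ∈ T, ¬ s ∣ m) ↔ Nat.Coprime m (∏ s ∈ T, s) := by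
    rw [Nat.coprime_prod_right_iff]
    refine forall₂_congr fun s hs => ?_
    rw [Nat.coprime_comm, (hT s hs).coprime_iff_not_dvd]
  by_cases h1 : ∀ s ∈ T, ¬ s ∣ m
  · rw [if_pos h1, if_pos (h.1 h1)]
  · rw [if_neg h1, if_neg fun h2 => h1 (h.2 h2)]

open Classical in
/-- the lower bound for the indicator -/
theorem ind_le {w b : ℕ} (hb : Even b) (Q : Finset ℕ) (e : ℕ → ℤ) (n : ℕ) :
    ∑ T ∈ fam0 w b Q ∪ fam1 w b Q, (-1 : ℝ) ^ T.card *
      (if ∀ s ∈ T, (s : ℤ) ∣ (n : ℤ) - e s then (1 : ℝ) else 0) ≤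
      if ∀ s ∈ Q, ¬ (s : ℤ) ∣ (n : ℤ) - e s then (1 : ℝ) else 0 := by
  have h2 := (Pool.Agent.Helper18.TR.bonf w b Q
    (fun s => if (s : ℤ) ∣ (n : ℤ) - e s then (1 : ℝ) else 0) hb (fun s _ => by
      split_ifs <;> norm_num)).1
  have h3 : ∏ s ∈ Q, (1 - if (s : ℤ) ∣ (n : ℤ) - e s then (1 : ℝ) else 0) =
      if ∀ s ∈ Q, ¬ (s : ℤ) ∣ (n : ℤ) - e s then (1 : ℝ) else 0 := by
    have h4 : ∏ s ∈ Q, (1 - if (s : ℤ) ∣ (n : ℤ) - e s then (1 : ℝ) else 0) =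
        ∏ s ∈ Q, if ¬ (s : ℤ) ∣ (n : ℤ) - e s then (1 : ℝ) else 0 := by
      refine Finset.prod_congr rfl fun s _ => ?_
      split_ifs <;> norm_num
    rw [h4, Finset.prod_ite_zero, Finset.prod_const_one]
  rw [h3] at h2
  refine le_trans (le_of_eq (Finset.sum_congr rfl fun T _ => ?_)) h2
  rw [Finset.prod_ite_zero, Finset.prod_const_one]

open Classical in
/-- the weighted sum over the pairs with all events of `T` -/
def AT (ω : ℝ → ℝ) (V : ℝ) (M : ℕ) (α : ℕ → ℝ) (e : ℕ → ℤ) (T : Finset ℕ) : ℝ :=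
  ∑ m ∈ Icc 1 M, ∑ n ∈ (II V).filter (fun n : ℕ => ∀ s ∈ T, (s : ℤ) ∣ ((m * n : ℕ) : ℤ) - e s),
    α m * (Λ n * ω (Real.log (n / V)))

open Classical in
theorem sum_AT_le {ω : ℝ → ℝ} (hω : IsW ω) (V : ℝ) (M : ℕ) {α : ℕ → ℝ} (hα : ∀ m, 0 ≤ α m)
    {w b : ℕ} (hb : Even b) (Q : Finset ℕ) (e : ℕ → ℤ) :
    ∑ T ∈ fam0 w b Q ∪ fam1 w b Q, (-1 : ℝ) ^ T.card * AT ω V M α e T ≤
      ∑ m ∈ Icc 1 M,
        ∑ n ∈ (II V).filter (fun n : ℕ => ∀ s ∈ Q, ¬ (s : ℤ) ∣ ((m * n : ℕ) : ℤ) - e s),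
          α m * (Λ n * ω (Real.log (n / V))) := by
  set F : Finset (Finset ℕ) := fam0 w b Q ∪ fam1 w b Q with hF
  have h3 : ∑ T ∈ F, (-1 : ℝ) ^ T.card * AT ω V M α e T =
      ∑ m ∈ Icc 1 M, ∑ n ∈ II V, α m * (Λ n * ω (Real.log (n / V))) *
        ∑ T ∈ F, (-1 : ℝ) ^ T.card *
        (if ∀ s ∈ T, (s : ℤ) ∣ ((m * n : ℕ) : ℤ) - e s then (1 : ℝ) else 0) := by
    have e1 : ∀ T ∈ F, (-1 : ℝ) ^ T.card * AT ω V M α e T = ∑ m ∈ Icc 1 M, ∑ n ∈ II V,
        α m * (Λ n * ω (Real.log (n / V))) * ((-1 : ℝ) ^ T.card *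
        (if ∀ s ∈ T, (s : ℤ) ∣ ((m * n : ℕ) : ℤ) - e s then (1 : ℝ) else 0)) := by
      intro T _
      unfold AT
      rw [Finset.mul_sum]
      refine Finset.sum_congr rfl fun m _ => ?_
      rw [Finset.sum_filter, Finset.mul_sum]
      refine Finset.sum_congr rfl fun n _ => ?_
      split_ifs <;> ring
    rw [Finset.sum_congr rfl e1, Finset.sum_comm]
    refine Finset.sum_congr rfl fun m _ => ?_
    rw [Finset.sum_comm]
    refine Finset.sum_congr rfl fun n _ => ?_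
    rw [Finset.mul_sum]
  rw [h3]
  refine Finset.sum_le_sum fun m _ => ?_
  rw [Finset.sum_filter]
  refine Finset.sum_le_sum fun n _ => ?_
  have h4 : 0 ≤ α m * (Λ n * ω (Real.log (n / V))) :=
    mul_nonneg (hα m) (mul_nonneg vonMangoldt_nonneg (hω.nonneg _))
  refine (mul_le_mul_of_nonneg_left (ind_le hb Q e (m * n)) h4).trans (le_of_eq ?_)
  split_ifs <;> ring

theorem hSL (hBB : StBB) (hTH : Pool.Agent.Helper15.AB.StTH) : StSL := by
  classical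
  intro ω hω
  obtain ⟨b, hb, hFL⟩ := Pool.Agent.Helper18.TR.flMain 2 (1 / 2) (by norm_num) (by norm_num)
  obtain ⟨B, hB⟩ := Pool.Agent.Helper18.TR.pf_Level b
  obtain ⟨cT, CT, x₀, hcT, -, hx₀, hTh'⟩ := hTH ω hω
  refine ⟨1 / (4 * (B + 1)), cT / 2, by positivity, ?_, by positivity, ?_⟩
  · rw [div_le_div_iff₀ (by positivity) (by norm_num)]
    have : (0 : ℝ) ≤ B := Nat.cast_nonneg B
    linarith
  intro κ₁ hκ₁
  obtain ⟨X₁, hX₁2, hX₁⟩ := hBB ω hω 2 κ₁ (1 / 4) hκ₁ (by norm_num)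
  obtain ⟨X₂, hX₂⟩ : ∃ X₂ : ℝ, ∀ X : ℝ, X₂ ≤ X → x₀ ≤ X ^ κ₁ :=
    Filter.eventually_atTop.1 ((tendsto_rpow_atTop hκ₁).eventually_ge_atTop x₀)
  refine ⟨max X₁ X₂, hX₁2.trans (le_max_left _ _), ?_⟩
  intro X V Q e α hX hV1 hV2 hQ he hα
  have hX1 : X₁ ≤ X := (le_max_left _ _).trans hX
  have hX2 : X₂ ≤ X := (le_max_right _ _).trans hX
  have hXX : 2 ≤ X := hX₁2.trans hX1
  set κ : ℝ := 1 / (4 * (B + 1)) with hκ
  have hκ0 : 0 < κ := by positivity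
  set w : ℕ := ⌊X ^ κ⌋₊ with hw
  have hXκ : 1 ≤ X ^ κ := Real.one_le_rpow (by linarith) hκ0.le
  have hw1 : 1 ≤ w := Nat.le_floor (by exact_mod_cast hXκ)
  have hwX : (w : ℝ) ≤ X ^ κ := Nat.floor_le (by linarith)
  have hQw : ∀ s ∈ Q, s.Prime ∧ s ≤ w := fun s hs => ⟨(hQ s hs).1, Nat.le_floor (hQ s hs).2.2⟩
  obtain ⟨β, hβ1, hβ2⟩ := exists_b Q e he
  set M : ℕ := ⌊X / V⌋₊ with hM
  set F : Finset (Finset ℕ) := fam0 w b Q ∪ fam1 w b Q with hF
  have hFQ : ∀ T ∈ F, T ⊆ Q := by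
    intro T hT
    rw [hF, Finset.mem_union] at hT
    rcases hT with hT | hT
    · unfold fam0 at hT
      simp only [Finset.mem_filter] at hT
      exact Finset.mem_powerset.1 hT.1
    · unfold fam1 at hT
      simp only [Finset.mem_filter] at hT
      exact Finset.mem_powerset.1 hT.1
  have hFB : ∀ T ∈ F, ∏ p ∈ T, p ≤ w ^ B := fun T hT => hB w hw1 Q hQw T hT
  have h2 := sum_AT_le hω V M (fun m => (hα m).1) (w := w) hb Q e
  -- errors
  set dd : Finset ℕ → ℕ := fun T => ∏ s ∈ T, s with hdd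
  have hpf : ∀ T ∈ F, (dd T).primeFactors = T := fun T hT =>
    Nat.primeFactors_prod fun s hs => (hQw s (hFQ T hT hs)).1
  have hd1 : ∀ T ∈ F, 1 ≤ dd T := fun T hT => prod_ge_one fun s hs => (hQw s (hFQ T hT hs)).1
  set MT : Finset ℕ → ℝ := fun T =>
    Th ω V / (Nat.totient (dd T) : ℝ) * ∑ m ∈ (Icc 1 M).filter (fun m => Nat.Coprime m (dd T)), α m
    with hMT
  have h4 : ∀ T ∈ F, |AT ω V M α e T - MT T| = Er ω V M α (dd T) (β (dd T)) := by
    intro T hT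
    unfold Er AT
    have h5 : ∀ m : ℕ, (II V).filter (fun n : ℕ => ∀ s ∈ T, (s : ℤ) ∣ ((m * n : ℕ) : ℤ) - e s) =
        (II V).filter (fun n : ℕ => ((dd T : ℕ) : ℤ) ∣ ((m * n : ℕ) : ℤ) - β (dd T)) := by
      intro m
      refine Finset.filter_congr fun n _ => ?_
      rw [← dvd_all fun s hs => (hQw s (hFQ T hT hs)).1]
      refine forall₂_congr fun s hs => ?_
      have h6 : (s : ℤ) ∣ β (dd T) - e s := by
        refine hβ2 (dd T) (hd1 T hT) ?_ s ?_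
        · rw [hpf T hT]
          exact hFQ T hT
        · rw [hpf T hT]
          exact hs
      have h7 : ((m * n : ℕ) : ℤ) - e s = (((m * n : ℕ) : ℤ) - β (dd T)) + (β (dd T) - e s) := by
        ring
      rw [h7, dvd_add_left h6]
    simp only [h5]
    rfl
  have hdX : ∀ T ∈ F, dd T ∈ Icc 1 ⌊X ^ (1 / 4 : ℝ)⌋₊ := by
    intro T hT
    rw [Finset.mem_Icc]
    refine ⟨hd1 T hT, Nat.le_floor ?_⟩
    have h5 : ((dd T : ℕ) : ℝ) ≤ (w : ℝ) ^ B := by exact_mod_cast hFB T hT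
    refine h5.trans ((pow_le_pow_left₀ (Nat.cast_nonneg w) hwX B).trans ?_)
    rw [← Real.rpow_natCast, ← Real.rpow_mul (by linarith)]
    refine Real.rpow_le_rpow_of_exponent_le (by linarith) ?_
    rw [hκ, div_mul_eq_mul_div, one_mul, div_le_div_iff₀ (by positivity) (by norm_num)]
    have : (0 : ℝ) ≤ B := Nat.cast_nonneg B
    linarith
  have h5 : ∑ T ∈ F, |AT ω V M α e T - MT T| ≤ X / Real.log X ^ 2 := by
    rw [Finset.sum_congr rfl h4]
    have h6 : ∑ T ∈ F, Er ω V M α (dd T) (β (dd T)) =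
        ∑ d ∈ F.image dd, Er ω V M α d (β d) := by
      rw [Finset.sum_image]
      intro T hT T' hT' h
      have := congrArg Nat.primeFactors h
      rw [hpf T hT, hpf T' hT'] at this
      exact this
    rw [h6]
    refine le_trans (Finset.sum_le_sum_of_subset_of_nonneg ?_ fun d _ _ => ?_)
      (hX₁ X V α β hX1 hV1 hV2 (fun m => by
        rw [abs_of_nonneg (hα m).1]
        exact (hα m).2) fun q hq => hβ1 q hq)
    · intro d hd
      obtain ⟨T, hT, rfl⟩ := Finset.mem_image.1 hd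
      exact hdX T hT
    · unfold Er
      exact abs_nonneg _
  -- main term
  set PQ := ∏ s ∈ Q, (1 - 1 / ((s : ℝ) - 1)) with hPQ
  have hs3 : ∀ s ∈ Q, (3 : ℝ) ≤ s := fun s hs => by exact_mod_cast (hQ s hs).2.1
  have hs1 : ∀ s ∈ Q, 0 ≤ 1 / ((s : ℝ) - 1) := fun s hs => by
    have h3 := hs3 s hs
    have : (0 : ℝ) < (s : ℝ) - 1 := by linarith
    positivity
  have hs2 : ∀ s ∈ Q, 1 / ((s : ℝ) - 1) ≤ 1 / 2 := fun s hs => by
    have h3 := hs3 s hs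
    rw [div_le_div_iff₀ (by linarith) (by norm_num)]
    linarith
  have hg0 : ∀ m : ℕ, ∀ s ∈ Q, 0 ≤ gm m s := fun m s hs => by
    unfold gm
    refine mul_nonneg ?_ (hs1 s hs)
    split_ifs <;> norm_num
  have hg1 : ∀ m : ℕ, ∀ s ∈ Q, gm m s ≤ 1 / ((s : ℝ) - 1) := fun m s hs => by
    unfold gm
    have h3 := hs1 s hs
    split_ifs <;> linarith
  have hPQ0 : 0 ≤ PQ := Finset.prod_nonneg fun s hs => by
    have := hs2 s hs
    linarith
  have hmain : ∀ m : ℕ, 1 / 2 * PQ ≤ ∑ T ∈ F, (-1 : ℝ) ^ T.card * ∏ p ∈ T, gm m p := by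
    intro m
    have h6 := (hFL w Q hQw (gm m) (fun s hs => by
      have h3 := hs3 s hs
      refine ⟨hg0 m s hs, (hg1 m s hs).trans ?_, (hg1 m s hs).trans (hs2 s hs)⟩
      rw [div_le_div_iff₀ (by linarith) (by linarith)]
      linarith)).2
    refine le_trans ?_ h6
    have h7 : PQ ≤ ∏ s ∈ Q, (1 - gm m s) := by
      refine Finset.prod_le_prod (fun s hs => ?_) fun s hs => ?_
      · have := hs2 s hs
        linarith
      · have := hg1 m s hs
        linarith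
    linarith
  have hTh : cT * V ≤ Th ω V := (hTh' V ((hX₂ X hX2).trans hV1)).1
  have hV0 : 0 < V := lt_of_lt_of_le (by linarith) ((hx₀.trans (hX₂ X hX2)).trans hV1)
  have hTh0 : 0 ≤ Th ω V := by
    have : 0 ≤ cT * V := by positivity
    linarith
  have h6 : ∑ T ∈ F, (-1 : ℝ) ^ T.card * MT T =
      Th ω V * ∑ m ∈ Icc 1 M, α m * ∑ T ∈ F, (-1 : ℝ) ^ T.card * ∏ p ∈ T, gm m p := by
    have e1 : ∀ T ∈ F, (-1 : ℝ) ^ T.card * MT T = Th ω V * ∑ m ∈ Icc 1 M, α m *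
        ((-1 : ℝ) ^ T.card * ∏ p ∈ T, gm m p) := by
      intro T hT
      rw [hMT]
      dsimp only
      rw [hdd]
      dsimp only
      rw [totient_prod fun s hs => (hQw s (hFQ T hT hs)).1, Finset.sum_filter, Finset.mul_sum,
        Finset.mul_sum, Finset.mul_sum]
      refine Finset.sum_congr rfl fun m _ => ?_
      rw [prod_gm m fun s hs => (hQw s (hFQ T hT hs)).1, Finset.prod_div_distrib,
        Finset.prod_const_one]
      split_ifs <;> ring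
    rw [Finset.sum_congr rfl e1, ← Finset.mul_sum, Finset.sum_comm]
    congr 1
    refine Finset.sum_congr rfl fun m _ => ?_
    rw [Finset.mul_sum]
  have h7 : ∑ T ∈ F, (-1 : ℝ) ^ T.card * MT T - ∑ T ∈ F, |AT ω V M α e T - MT T| ≤
      ∑ T ∈ F, (-1 : ℝ) ^ T.card * AT ω V M α e T := by
    rw [← Finset.sum_sub_distrib]
    refine Finset.sum_le_sum fun T _ => ?_
    have h8 : |(-1 : ℝ) ^ T.card * (AT ω V M α e T - MT T)| = |AT ω V M α e T - MT T| := by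
      rw [abs_mul, abs_pow, abs_neg, abs_one, one_pow, one_mul]
    have h9 := neg_abs_le ((-1 : ℝ) ^ T.card * (AT ω V M α e T - MT T))
    rw [h8] at h9
    linarith
  have h8 : cT / 2 * V * PQ * (∑ m ∈ Icc 1 M, α m) ≤ ∑ T ∈ F, (-1 : ℝ) ^ T.card * MT T := by
    rw [h6]
    have h9 : 1 / 2 * PQ * ∑ m ∈ Icc 1 M, α m ≤
        ∑ m ∈ Icc 1 M, α m * ∑ T ∈ F, (-1 : ℝ) ^ T.card * ∏ p ∈ T, gm m p := by
      rw [Finset.mul_sum]
      refine Finset.sum_le_sum fun m _ => ?_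
      rw [mul_comm]
      exact mul_le_mul_of_nonneg_left (hmain m) (hα m).1
    have h10 : 0 ≤ ∑ m ∈ Icc 1 M, α m := Finset.sum_nonneg fun m _ => (hα m).1
    have h11 : cT * V * (1 / 2 * PQ * ∑ m ∈ Icc 1 M, α m) ≤
        Th ω V * ∑ m ∈ Icc 1 M, α m * ∑ T ∈ F, (-1 : ℝ) ^ T.card * ∏ p ∈ T, gm m p :=
      mul_le_mul hTh h9 (by positivity) hTh0
    refine le_trans (le_of_eq ?_) h11
    ring
  linarith

end Pool.Agent.Helper33.JS
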